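import Pool.Agent.Q93.TypK3

open MeasureTheory Metric Set Filter Topology TopologicalSpace
open scoped ENNReal NNReal

namespace Pool.Agent.Q93.TAP

open Pool.Agent.Q93.TypK (lat lat_apply exists_lat card_lat)

/-- Euclidean space `ℝ^n`. -/
abbrev E (n : ℕ) := EuclideanSpace ℝ (Fin n)

variable {n k : ℕ}

/-- `B` contains a `k`-term progression with every common difference in `[0,1]^n`. -/
def HasAP (k : ℕ) (B : Set (E n)) : Prop :=
  ∀ r : E n, (∀ i, r i ∈ Icc (0 : ℝ) 1) → ∃ a : E n, ∀ j : ℕ, j < k → a + (j : ℝ) • r ∈ B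

/-- The space of the nonempty compact sets that contain a `k`-term progression with every common
difference in `[0,1]^n`, with the Hausdorff distance. -/
abbrev APS (n k : ℕ) := {K : NonemptyCompacts (E n) // HasAP k (K : Set (E n))}

/-- `B` is covered by `m` open balls of radius `δ`. -/
def Cov (δ : ℝ) (m : ℕ) (B : Set (E n)) : Prop :=
  ∃ S : Finset (E n), S.card ≤ m ∧ B ⊆ ⋃ x ∈ S, ball x δ

lemma HasAP.mono {B C : Set (E n)} (h : HasAP k B) (hBC : B ⊆ C) : HasAP k C := by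
  intro r hr
  obtain ⟨a, ha⟩ := h r hr
  exact ⟨a, fun j hj => hBC (ha j hj)⟩

lemma HasAP.nonempty {B : Set (E n)} (h : HasAP k B) (hk : 1 ≤ k) : B.Nonempty := by
  obtain ⟨a, ha⟩ := h 0 (fun i => by simp)
  exact ⟨_, ha 0 hk⟩

lemma Cov.mono {δ δ' : ℝ} {m m' : ℕ} {B B' : Set (E n)} (h : Cov δ m B) (h1 : δ ≤ δ')
    (h2 : m ≤ m') (h3 : B' ⊆ B) : Cov δ' m' B' := by
  obtain ⟨S, hS, hB⟩ := h
  refine ⟨S, hS.trans h2, (h3.trans hB).trans ?_⟩
  exact iUnion₂_mono fun x _ => ball_subset_ball h1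

/-- Limits of sets with progressions. -/
lemma hasAP_limit {C : ℕ → Set (E n)} {L Z : Set (E n)} (hZ : IsCompact Z) (hC : ∀ j, C j ⊆ Z)
    (hk : 1 ≤ k) (hap : ∀ j, HasAP k (C j))
    (hL : ∀ (φ : ℕ → ℕ), StrictMono φ → ∀ (x : ℕ → E n) (x₀ : E n), (∀ j, x j ∈ C (φ j)) →
      Tendsto x atTop (𝓝 x₀) → x₀ ∈ L) : HasAP k L := by
  intro r hr
  choose a ha using fun j => hap j r hr
  have haZ : ∀ j, a j ∈ Z := by
    intro j
    have := ha j 0 hk
    simp only [Nat.cast_zero, zero_smul, add_zero] at this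
    exact hC j this
  obtain ⟨a₀, -, φ, hφ, hlim⟩ := hZ.tendsto_subseq haZ
  refine ⟨a₀, fun i hi => hL φ hφ (fun j => a (φ j) + (i : ℝ) • r) _ (fun j => ha _ i hi) ?_⟩
  exact hlim.add_const _

lemma edist_ne (K L : NonemptyCompacts (E n)) :
    hausdorffEDist (K : Set (E n)) (L : Set (E n)) ≠ ⊤ :=
  hausdorffEDist_ne_top_of_nonempty_of_bounded K.nonempty L.nonempty
    K.isCompact.isBounded L.isCompact.isBounded

lemma subset_cthickening_of_dist {K L : NonemptyCompacts (E n)} {ρ : ℝ} (h : dist K L < ρ) :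
    (K : Set (E n)) ⊆ cthickening ρ (L : Set (E n)) := by
  intro x hx
  rw [NonemptyCompacts.dist_eq] at h
  obtain ⟨y, hy, hxy⟩ := exists_dist_lt_of_hausdorffDist_lt hx h (edist_ne _ _)
  exact mem_cthickening_of_dist_le _ _ _ _ hy hxy.le

lemma isClosed_hasAP (n k : ℕ) : IsClosed {K : NonemptyCompacts (E n) | HasAP k (K : Set (E n))} := by
  rcases Nat.eq_zero_or_pos k with rfl | hk
  · convert isClosed_univ using 1
    ext K
    simp only [Set.mem_ofPred_eq, mem_univ, iff_true]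
    exact fun r _ => ⟨0, fun j hj => absurd hj (by omega)⟩
  refine IsSeqClosed.isClosed ?_
  intro K K₀ hK hlim
  have hdist : Tendsto (fun j => dist (K j) K₀) atTop (𝓝 0) := by
    rw [← tendsto_iff_dist_tendsto_zero]; exact hlim
  obtain ⟨J, hJ⟩ := (hdist.eventually_lt_const one_pos).exists_forall_of_atTop
  refine hasAP_limit (C := fun j => (K (j + J) : Set (E n)))
    (Z := cthickening 1 (K₀ : Set (E n))) K₀.isCompact.cthickening
    (fun j => subset_cthickening_of_dist (hJ _ (Nat.le_add_left _ _))) hk (fun j => hK _) ?_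
  intro φ hφ x x₀ hx hx₀
  have h5 : Tendsto (fun j => infDist (x j) (K₀ : Set (E n))) atTop
      (𝓝 (infDist x₀ (K₀ : Set (E n)))) :=
    ((continuous_infDist_pt _).tendsto _).comp hx₀
  have hφ' : Tendsto (fun j => φ j + J) atTop atTop :=
    tendsto_atTop_mono (fun j => Nat.le_add_right _ _) hφ.tendsto_atTop
  have h6 : Tendsto (fun j => infDist (x j) (K₀ : Set (E n))) atTop (𝓝 0) := by
    refine squeeze_zero (fun _ => infDist_nonneg) (fun j => ?_) (hdist.comp hφ')
    have := infDist_le_hausdorffDist_of_mem (hx j) (edist_ne (K (φ j + J)) K₀)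
    simpa [NonemptyCompacts.dist_eq] using this
  exact (K₀.isCompact.isClosed.mem_iff_infDist_zero K₀.nonempty).2 (tendsto_nhds_unique h5 h6)

instance (n k : ℕ) : CompleteSpace (APS n k) := (isClosed_hasAP n k).completeSpace_coe

/-- Balls of radius `k √n` contain the progressions. -/
lemma hasAP_ball (n k : ℕ) {R : ℝ} (hR : k * Real.sqrt n ≤ R) :
    HasAP k (closedBall (0 : E n) R) := by
  intro r hr
  refine ⟨0, fun j hj => ?_⟩
  rw [mem_closedBall_zero_iff, zero_add, norm_smul]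
  have h1 : ‖r‖ ≤ Real.sqrt n := by
    rw [EuclideanSpace.norm_eq]
    refine Real.sqrt_le_sqrt ?_
    calc ∑ i, ‖r i‖ ^ 2 ≤ ∑ _i : Fin n, (1 : ℝ) := by
          refine Finset.sum_le_sum fun i _ => ?_
          rw [Real.norm_eq_abs, sq_abs]
          have := (hr i).1
          have := (hr i).2
          nlinarith
      _ = n := by simp
  have h2 : ‖(j : ℝ)‖ ≤ k := by
    rw [Real.norm_of_nonneg (by positivity)]
    exact_mod_cast hj.le
  calc ‖(j : ℝ)‖ * ‖r‖ ≤ k * Real.sqrt n := by gcongr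
    _ ≤ R := hR

instance (n k : ℕ) : Nonempty (APS n k) :=
  ⟨⟨⟨⟨closedBall (0 : E n) (k * Real.sqrt n), isCompact_closedBall _ _⟩,
    ⟨0, mem_closedBall_self (by positivity)⟩⟩, hasAP_ball n k le_rfl⟩⟩

/-! ### self-similar sets -/

/-- The union of the sets `(z + B) / M`, `z ∈ A`. -/
def step (M : ℕ) (A : Finset (Fin n → ℤ)) (B : Set (E n)) : Set (E n) :=
  ⋃ z ∈ A, (fun y => (M : ℝ)⁻¹ • (lat 1 z + y)) '' B

lemma step_mono {M : ℕ} {A : Finset (Fin n → ℤ)} {B C : Set (E n)} (h : B ⊆ C) :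
    step M A B ⊆ step M A C := iUnion₂_mono fun _ _ => image_mono h

lemma step_compact {M : ℕ} {A : Finset (Fin n → ℤ)} {B : Set (E n)} (h : IsCompact B) :
    IsCompact (step M A B) := by
  refine A.finite_toSet.isCompact_biUnion fun z _ => h.image ?_
  fun_prop

/-- `A` contains the progressions with the differences in `[0, M-1]^n`. -/
def Disc (k M : ℕ) (A : Finset (Fin n → ℤ)) : Prop :=
  ∀ d : Fin n → ℤ, (∀ i, 0 ≤ d i ∧ d i < M) → ∃ a : Fin n → ℤ, ∀ j : ℕ, j < k →
    (fun i => a i + j * d i) ∈ A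

lemma step_hasAP {M : ℕ} (hM : 1 ≤ M) {A : Finset (Fin n → ℤ)} (hA : Disc k M A)
    {B : Set (E n)} (hB : HasAP k B) : HasAP k (step M A B) := by
  intro r hr
  have hM0 : (0 : ℝ) < M := by exact_mod_cast hM
  set d : Fin n → ℤ := fun i => min ⌊(M : ℝ) * r i⌋ ((M : ℤ) - 1) with hd
  have hd1 : ∀ i, 0 ≤ d i ∧ d i < M := by
    intro i
    have h1 : 0 ≤ ⌊(M : ℝ) * r i⌋ := Int.floor_nonneg.2 (mul_nonneg hM0.le (hr i).1)
    have h2 : (1 : ℤ) ≤ M := by exact_mod_cast hM
    simp only [hd]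
    omega
  set r' : E n := (M : ℝ) • r - lat 1 d with hr'
  have hr'1 : ∀ i, r' i ∈ Icc (0 : ℝ) 1 := by
    intro i
    have e : r' i = M * r i - d i := by
      rw [hr', PiLp.sub_apply, PiLp.smul_apply, lat_apply, smul_eq_mul, one_mul]
    rw [e]
    have h1 := Int.floor_le ((M : ℝ) * r i)
    have h2 := Int.lt_floor_add_one ((M : ℝ) * r i)
    have h3 := (hr i).2
    rcases le_total ⌊(M : ℝ) * r i⌋ ((M : ℤ) - 1) with h | h
    · have : d i = ⌊(M : ℝ) * r i⌋ := min_eq_left h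
      rw [this]
      constructor <;> linarith
    · have : d i = (M : ℤ) - 1 := min_eq_right h
      rw [this]
      have h4 : (((M : ℤ) - 1 : ℤ) : ℝ) ≤ (⌊(M : ℝ) * r i⌋ : ℝ) := by exact_mod_cast h
      push_cast at h4 ⊢
      constructor
      · linarith
      · nlinarith
  obtain ⟨a, ha⟩ := hA d hd1
  obtain ⟨b, hb⟩ := hB r' hr'1
  refine ⟨(M : ℝ)⁻¹ • (lat 1 a + b), fun j hj => ?_⟩
  simp only [step, mem_iUnion, exists_prop]
  refine ⟨_, ha j hj, b + (j : ℝ) • r', hb j hj, ?_⟩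
  ext i
  simp only [PiLp.add_apply, PiLp.smul_apply, lat_apply, smul_eq_mul, one_mul, hr',
    PiLp.sub_apply]
  push_cast
  field_simp
  ring

/-- The approximations of the self-similar set. -/
def app (M : ℕ) (A : Finset (Fin n → ℤ)) (R : ℝ) (J : ℕ) : Set (E n) :=
  (step M A)^[J] (closedBall 0 R)

lemma app_succ (M : ℕ) (A : Finset (Fin n → ℤ)) (R : ℝ) (J : ℕ) :
    app M A R (J + 1) = step M A (app M A R J) := by
  unfold app
  rw [Function.iterate_succ_apply']

lemma app_compact (M : ℕ) (A : Finset (Fin n → ℤ)) (R : ℝ) (J : ℕ) :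
    IsCompact (app M A R J) := by
  induction J with
  | zero => exact isCompact_closedBall _ _
  | succ J ih => rw [app_succ]; exact step_compact ih

lemma app_hasAP {M : ℕ} (hM : 1 ≤ M) {A : Finset (Fin n → ℤ)} (hA : Disc k M A) {R : ℝ}
    (hR : k * Real.sqrt n ≤ R) (J : ℕ) : HasAP k (app M A R J) := by
  induction J with
  | zero => exact hasAP_ball n k hR
  | succ J ih => rw [app_succ]; exact step_hasAP hM hA ih

lemma app_one {M : ℕ} (hM : 2 ≤ M) {A : Finset (Fin n → ℤ)} {R : ℝ}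
    (hR : ∀ z ∈ A, ‖lat 1 z‖ ≤ R) : app M A R 1 ⊆ closedBall 0 R := by
  intro y hy
  rw [app_succ] at hy
  simp only [step, mem_iUnion, exists_prop] at hy
  obtain ⟨z, hz, w, hw, rfl⟩ := hy
  have hw' : ‖w‖ ≤ R := by simpa [app] using hw
  rw [mem_closedBall_zero_iff, norm_smul, norm_inv, Real.norm_of_nonneg (Nat.cast_nonneg M)]
  have hM2 : (2 : ℝ) ≤ M := by exact_mod_cast hM
  rw [inv_mul_le_iff₀ (by linarith)]
  have h1 := norm_add_le (lat 1 z) w
  have h2 := hR z hz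
  have h3 : 0 ≤ R := (norm_nonneg _).trans hw'
  nlinarith

lemma app_anti {M : ℕ} (hM : 2 ≤ M) {A : Finset (Fin n → ℤ)} {R : ℝ}
    (hR : ∀ z ∈ A, ‖lat 1 z‖ ≤ R) : Antitone (app M A R) := by
  refine antitone_nat_of_succ_le fun J => ?_
  induction J with
  | zero => exact app_one hM hR
  | succ J ih =>
    have h := step_mono (M := M) (A := A) ih
    rwa [← app_succ, ← app_succ] at h

lemma app_cov {M : ℕ} (hM : 1 ≤ M) {A : Finset (Fin n → ℤ)} {R : ℝ} (J : ℕ) :
    ∃ S : Finset (E n), S.card ≤ A.card ^ J ∧ app M A R J ⊆ ⋃ x ∈ S, closedBall x (R / M ^ J) := by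
  classical
  have hM0 : (0 : ℝ) < M := by exact_mod_cast hM
  induction J with
  | zero =>
    refine ⟨{0}, by simp, ?_⟩
    intro y hy
    simpa [app] using hy
  | succ J ih =>
    obtain ⟨S, hS, hcov⟩ := ih
    refine ⟨(A ×ˢ S).image (fun p => (M : ℝ)⁻¹ • (lat 1 p.1 + p.2)), ?_, ?_⟩
    · refine Finset.card_image_le.trans ?_
      rw [Finset.card_product, pow_succ, mul_comm]
      exact Nat.mul_le_mul_right _ hS
    · intro y hy
      rw [app_succ] at hy
      simp only [step, mem_iUnion, exists_prop] at hy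
      obtain ⟨z, hz, w, hw, rfl⟩ := hy
      have h1 := hcov hw
      simp only [mem_iUnion, exists_prop] at h1 ⊢
      obtain ⟨x, hx, hwx⟩ := h1
      refine ⟨_, Finset.mem_image.2 ⟨(z, x), Finset.mem_product.2 ⟨hz, hx⟩, rfl⟩, ?_⟩
      rw [mem_closedBall, dist_eq_norm] at hwx ⊢
      have e : (M : ℝ)⁻¹ • (lat 1 z + w) - (M : ℝ)⁻¹ • (lat 1 z + x) = (M : ℝ)⁻¹ • (w - x) := by
        rw [← smul_sub]; congr 1; abel
      rw [e, norm_smul, norm_inv, Real.norm_of_nonneg hM0.le, pow_succ, inv_mul_le_iff₀ hM0]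
      calc ‖w - x‖ ≤ R / M ^ J := hwx
        _ = M * (R / (M ^ J * M)) := by field_simp

/-- The self-similar set. -/
def attr (M : ℕ) (A : Finset (Fin n → ℤ)) (R : ℝ) : Set (E n) := ⋂ J, app M A R J

lemma attr_compact (M : ℕ) (A : Finset (Fin n → ℤ)) (R : ℝ) : IsCompact (attr M A R) :=
  (app_compact M A R 0).of_isClosed_subset (isClosed_iInter fun J => (app_compact M A R J).isClosed)
    (iInter_subset _ 0)

lemma attr_hasAP {M : ℕ} (hM : 2 ≤ M) (hk : 1 ≤ k) {A : Finset (Fin n → ℤ)} (hA : Disc k M A)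
    {R : ℝ} (hR : k * Real.sqrt n ≤ R) (hR' : ∀ z ∈ A, ‖lat 1 z‖ ≤ R) :
    HasAP k (attr M A R) := by
  refine hasAP_limit (C := app M A R) (Z := closedBall 0 R) (isCompact_closedBall _ _)
    (fun j => ?_) hk (app_hasAP (by omega) hA hR) ?_
  · have := app_anti hM hR' (Nat.zero_le j)
    simpa [app] using this
  · intro φ hφ x x₀ hx hx₀
    refine mem_iInter.2 fun J => ?_
    refine (app_compact M A R J).isClosed.mem_of_tendsto hx₀ ?_
    filter_upwards [eventually_ge_atTop J] with j hj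
    exact app_anti hM hR' (hj.trans (hφ.id_le j)) (hx j)

end Pool.Agent.Q93.TAP
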