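import Pool.Agent.Q93.TAP.Haus

open MeasureTheory Metric Set Filter Topology TopologicalSpace
open scoped ENNReal NNReal

namespace Pool.Agent.Q93.TAP

open Pool.Agent.Q93.TypK (lat lat_apply exists_lat card_lat)

variable {n k : ℕ}

/-- The least number of open balls of radius `δ` which cover `B` (for bounded `B`). -/
noncomputable def covN (δ : ℝ) (B : Set (E n)) : ℕ := sInf {m | Cov δ m B}

/-- The exponent of the covering number at the scale `δ`. -/
noncomputable def expo (δ : ℝ) (B : Set (E n)) : ℝ := Real.log (covN δ B) / Real.log (1 / δ)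

/-- Lower Minkowski dimension (of bounded sets). -/
noncomputable def lowerDim (B : Set (E n)) : EReal :=
  liminf (fun δ : ℝ => (expo δ B : EReal)) (𝓝[>] 0)

/-- Upper Minkowski dimension (of bounded sets). -/
noncomputable def upperDim (B : Set (E n)) : EReal :=
  limsup (fun δ : ℝ => (expo δ B : EReal)) (𝓝[>] 0)

/-- `f^M_n(k)`: the infimum of the upper Minkowski dimensions of the bounded sets which contain a
`k`-term progression with every common difference in `[0,1]^n`. -/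
noncomputable def fM (n k : ℕ) : EReal :=
  ⨅ (B : Set (E n)) (_ : Bornology.IsBounded B) (_ : HasAP k B), upperDim B

lemma cov_grid {R : ℝ} (hR : 0 ≤ R) {B : Set (E n)} (hB : B ⊆ closedBall 0 R) {δ : ℝ}
    (hδ : 0 < δ) (hδ1 : δ ≤ 1) :
    ∃ m : ℕ, (m : ℝ) ≤ ((2 * R * (Real.sqrt n + 1) + 5) / δ) ^ n ∧ Cov δ m B := by
  classical
  have hsq : 0 ≤ Real.sqrt n := Real.sqrt_nonneg _
  set e : ℝ := δ / (Real.sqrt n + 1) with he
  have he0 : 0 < e := by positivity
  have heδ : Real.sqrt n * e < δ := by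
    rw [he, mul_div_assoc', div_lt_iff₀ (by positivity)]
    nlinarith
  set L : ℕ := ⌈R / e + 1⌉₊ with hL
  have hL1 : R / e + 1 ≤ L := Nat.le_ceil _
  have hL2 : (L : ℝ) < R / e + 1 + 1 := Nat.ceil_lt_add_one (by positivity)
  set Λ : Finset (Fin n → ℤ) := Finset.Icc (fun _ => -(L : ℤ)) (fun _ => (L : ℤ)) with hΛ
  have hcard : Λ.card = (2 * L + 1) ^ n := by
    rw [hΛ, Pi.card_Icc]
    simp only [Int.card_Icc, Finset.prod_const, Finset.card_univ, Fintype.card_fin]
    congr 1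
    omega
  refine ⟨Λ.card, ?_, Λ.image (lat e), Finset.card_image_le, ?_⟩
  · rw [hcard]
    push_cast
    refine pow_le_pow_left₀ (by positivity) ?_ n
    have h1 : R / e = R * (Real.sqrt n + 1) / δ := by rw [he]; field_simp
    rw [le_div_iff₀ hδ]
    have h2 : (L : ℝ) * δ ≤ R * (Real.sqrt n + 1) + 2 * δ := by
      have : (L : ℝ) * δ ≤ (R / e + 1 + 1) * δ := by gcongr
      rw [h1] at this
      have e2 : (R * (Real.sqrt n + 1) / δ + 1 + 1) * δ = R * (Real.sqrt n + 1) + 2 * δ := by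
        field_simp; ring
      linarith
    nlinarith
  · intro x hx
    have hxR : ‖x‖ ≤ R := by simpa using hB hx
    simp only [mem_iUnion, exists_prop]
    refine ⟨lat e (fun i => ⌊x i / e⌋), Finset.mem_image.2 ⟨_, ?_, rfl⟩, ?_⟩
    · rw [hΛ, Finset.mem_Icc]
      have h3 : ∀ i, |x i / e| ≤ R / e := by
        intro i
        rw [abs_div, abs_of_pos he0]
        gcongr
        exact (PiLp.norm_apply_le x i).trans hxR
      constructor
      · intro i
        show -(L : ℤ) ≤ ⌊x i / e⌋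
        rw [Int.le_floor]
        push_cast
        have := (abs_le.1 (h3 i)).1
        linarith
      · intro i
        show ⌊x i / e⌋ ≤ (L : ℤ)
        have h4 : ((⌊x i / e⌋ : ℤ) : ℝ) ≤ L := by
          have h5 := Int.floor_le (x i / e)
          have := (abs_le.1 (h3 i)).2
          linarith
        exact_mod_cast h4
    · rw [mem_ball, dist_eq_norm]
      exact (exists_lat he0 x).trans_lt heδ

lemma covN_le {δ : ℝ} {m : ℕ} {B : Set (E n)} (h : Cov δ m B) : covN δ B ≤ m := Nat.sInf_le h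

lemma cov_covN {B : Set (E n)} (hB : Bornology.IsBounded B) {δ : ℝ} (hδ : 0 < δ) :
    Cov δ (covN δ B) B := by
  refine Nat.sInf_mem (s := {m | Cov δ m B}) ?_
  obtain ⟨R, hR⟩ := hB.subset_closedBall 0
  obtain ⟨m, -, hm⟩ := cov_grid (le_max_right R 0)
    (hR.trans (closedBall_subset_closedBall (le_max_left R 0))) (lt_min hδ one_pos)
    (min_le_right δ 1)
  exact ⟨m, hm.mono (min_le_left _ _) le_rfl Subset.rfl⟩

lemma covN_pos {B : Set (E n)} (hB : Bornology.IsBounded B) (hne : B.Nonempty) {δ : ℝ}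
    (hδ : 0 < δ) : 1 ≤ covN δ B := by
  obtain ⟨S, hS, hcov⟩ := cov_covN hB hδ
  obtain ⟨y, hy⟩ := hne
  have h1 := hcov hy
  simp only [mem_iUnion, exists_prop] at h1
  obtain ⟨x, hx, -⟩ := h1
  exact (Finset.card_pos.2 ⟨x, hx⟩).trans_le hS

lemma rpow_inv_eq {δ : ℝ} (hδ : 0 < δ) (s : ℝ) : δ ^ (-s) = (1 / δ) ^ s := by
  rw [one_div, Real.inv_rpow hδ.le, Real.rpow_neg hδ.le]

lemma expo_le {B : Set (E n)} (hB : Bornology.IsBounded B) (hne : B.Nonempty) {δ : ℝ}
    (hδ : 0 < δ) (hδ1 : δ < 1) {s : ℝ} : expo δ B ≤ s ↔ (covN δ B : ℝ) ≤ δ ^ (-s) := by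
  have h1 : (1 : ℝ) < 1 / δ := by rw [lt_div_iff₀ hδ]; linarith
  have h2 : 0 < Real.log (1 / δ) := Real.log_pos h1
  have h3 : (0 : ℝ) < covN δ B := by exact_mod_cast covN_pos hB hne hδ
  rw [expo, div_le_iff₀ h2, rpow_inv_eq hδ, ← Real.log_rpow (by positivity),
    Real.log_le_log_iff h3 (Real.rpow_pos_of_pos (by positivity) _)]

lemma small_ev : ∀ᶠ δ : ℝ in 𝓝[>] 0, 0 < δ ∧ δ < 1 := by
  have hlt : ∀ᶠ δ : ℝ in 𝓝[>] 0, δ < 1 :=
    (eventually_lt_nhds one_pos).filter_mono nhdsWithin_le_nhds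
  filter_upwards [hlt, self_mem_nhdsWithin] with δ h1 h2
  exact ⟨h2, h1⟩

lemma upperDim_le {B : Set (E n)} (hB : Bornology.IsBounded B) (hne : B.Nonempty) {s : ℝ}
    (h : ∀ᶠ δ in 𝓝[>] (0 : ℝ), ∃ m : ℕ, (m : ℝ) ≤ δ ^ (-s) ∧ Cov δ m B) : upperDim B ≤ s := by
  refine limsup_le_of_le (by isBoundedDefault) ?_
  filter_upwards [h, small_ev] with δ ⟨m, hm, hc⟩ ⟨h0, h1⟩
  rw [EReal.coe_le_coe_iff, expo_le hB hne h0 h1]
  have := covN_le hc
  exact le_trans (by exact_mod_cast this) hm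

lemma lowerDim_le {B : Set (E n)} (hB : Bornology.IsBounded B) (hne : B.Nonempty) {s : ℝ}
    (h : ∃ᶠ δ in 𝓝[>] (0 : ℝ), ∃ m : ℕ, (m : ℝ) ≤ δ ^ (-s) ∧ Cov δ m B) : lowerDim B ≤ s := by
  refine liminf_le_of_frequently_le ?_ (by isBoundedDefault)
  refine (h.and_eventually small_ev).mono ?_
  rintro δ ⟨⟨m, hm, hc⟩, h0, h1⟩
  rw [EReal.coe_le_coe_iff, expo_le hB hne h0 h1]
  have := covN_le hc
  exact le_trans (by exact_mod_cast this) hm

lemma of_lowerDim_lt {B : Set (E n)} (hB : Bornology.IsBounded B) (hne : B.Nonempty) {s : ℝ}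
    (h : lowerDim B < s) :
    ∃ᶠ δ in 𝓝[>] (0 : ℝ), ∃ m : ℕ, (m : ℝ) ≤ δ ^ (-s) ∧ Cov δ m B := by
  have h1 := frequently_lt_of_liminf_lt (by isBoundedDefault) h
  refine (h1.and_eventually small_ev).mono ?_
  rintro δ ⟨h2, h3, h4⟩
  rw [EReal.coe_lt_coe_iff] at h2
  exact ⟨_, (expo_le hB hne h3 h4).1 h2.le, cov_covN hB h3⟩

lemma le_upperDim {B : Set (E n)} (hB : Bornology.IsBounded B) (hne : B.Nonempty) {s : ℝ}
    (h : ∃ᶠ δ in 𝓝[>] (0 : ℝ), ∀ m : ℕ, Cov δ m B → δ ^ (-s) ≤ m) : s ≤ upperDim B := by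
  refine le_limsup_of_frequently_le ?_ (by isBoundedDefault)
  refine (h.and_eventually small_ev).mono ?_
  rintro δ ⟨h2, h0, h1⟩
  rw [EReal.coe_le_coe_iff]
  by_contra hneg
  push Not at hneg
  obtain ⟨t, h3, h4⟩ := exists_between hneg
  have h5 := (expo_le hB hne h0 h1).1 h3.le
  have h6 := h2 _ (cov_covN hB h0)
  have h7 : δ ^ (-t) < δ ^ (-s) := Real.rpow_lt_rpow_of_exponent_gt h0 h1 (by linarith)
  linarith

lemma lowerDim_le_upperDim (B : Set (E n)) : lowerDim B ≤ upperDim B :=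
  liminf_le_limsup (by isBoundedDefault) (by isBoundedDefault)

lemma upperDim_nonneg {B : Set (E n)} (hB : Bornology.IsBounded B) (hne : B.Nonempty) :
    0 ≤ lowerDim B := by
  refine le_liminf_of_le (by isBoundedDefault) ?_
  filter_upwards [small_ev] with δ ⟨h0, h1⟩
  have h2 : (0 : ℝ) ≤ expo δ B := by
    refine div_nonneg (Real.log_nonneg ?_) (Real.log_nonneg ?_)
    · exact_mod_cast covN_pos hB hne h0
    · rw [le_div_iff₀ h0]; linarith
  exact_mod_cast h2

lemma upperDim_le_n {B : Set (E n)} (hB : Bornology.IsBounded B) (hne : B.Nonempty) :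
    upperDim B ≤ n := by
  obtain ⟨R, hR⟩ := hB.subset_closedBall 0
  have hR' := hR.trans (closedBall_subset_closedBall (le_max_left R 0))
  refine EReal.le_of_forall_lt_iff_le.1 fun z hz => ?_
  have hz' : (n : ℝ) < z := by exact_mod_cast hz
  refine upperDim_le hB hne ?_
  have h1 := tendsto_inv_gt.eventually (rpow_ev hz'
    ((2 * (max R 0) * (Real.sqrt n + 1) + 5) ^ n))
  filter_upwards [h1, small_ev] with δ h1 ⟨h2, h3⟩
  obtain ⟨m, hm, hc⟩ := cov_grid (le_max_right R 0) hR' h2 h3.le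
  refine ⟨m, hm.trans ?_, hc⟩
  rw [rpow_inv_eq h2]
  refine le_trans (le_of_eq ?_) h1
  rw [Real.rpow_natCast, ← mul_pow]
  congr 1
  ring

variable (n k)

lemma fM_le {B : Set (E n)} (hB : Bornology.IsBounded B) (hap : HasAP k B) :
    fM n k ≤ upperDim B :=
  (iInf_le _ B).trans ((iInf_le _ hB).trans (iInf_le _ hap))

lemma fM_le_lowerDim (hk : 1 ≤ k) {B : Set (E n)} (hB : Bornology.IsBounded B) (hap : HasAP k B) :
    fM n k ≤ lowerDim B := by
  refine EReal.le_of_forall_lt_iff_le.1 fun s hs => ?_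
  obtain ⟨s₁, h1, h2⟩ := EReal.lt_iff_exists_real_btwn.1 hs
  rw [EReal.coe_lt_coe_iff] at h2
  obtain ⟨K, hK⟩ := exists_compact hk h2 ((of_lowerDim_lt hB (hap.nonempty hk) h1).mono
    fun δ ⟨m, hm, hc⟩ => ⟨m, B, hap, hm, hc⟩)
  exact (fM_le n k K.1.isCompact.isBounded K.2).trans
    (upperDim_le K.1.isCompact.isBounded K.1.nonempty hK)

lemma fM_nonneg (hk : 1 ≤ k) : 0 ≤ fM n k :=
  le_iInf fun _ => le_iInf fun hB => le_iInf fun hap =>
    (upperDim_nonneg hB (hap.nonempty hk)).trans (lowerDim_le_upperDim _)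

lemma fM_le_n (hk : 1 ≤ k) : fM n k ≤ n := by
  have h := hasAP_ball n k le_rfl
  exact (fM_le n k isBounded_closedBall h).trans
    (upperDim_le_n isBounded_closedBall (h.nonempty hk))

lemma typical_lower (hk : 1 ≤ k) :
    ∀ᶠ K : APS n k in residual (APS n k), lowerDim (K.1 : Set (E n)) ≤ fM n k := by
  have key : ∀ q : ℚ, ∀ᶠ K : APS n k in residual (APS n k), fM n k < ((q : ℝ) : EReal) →
      lowerDim (K.1 : Set (E n)) ≤ ((q : ℝ) : EReal) := by
    intro q
    by_cases hq : fM n k < ((q : ℝ) : EReal)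
    · obtain ⟨s, h1, h2⟩ := EReal.lt_iff_exists_real_btwn.1 hq
      obtain ⟨s', h3, h4⟩ := EReal.lt_iff_exists_real_btwn.1 h1
      rw [EReal.coe_lt_coe_iff] at h2 h4
      have h3' := h3
      unfold fM at h3'
      simp only [iInf_lt_iff] at h3'
      obtain ⟨B, hB, hap, hlt⟩ := h3'
      have hne := hap.nonempty hk
      obtain ⟨K₀, hK₀⟩ := exists_compact hk h4
        ((of_lowerDim_lt hB hne ((lowerDim_le_upperDim B).trans_lt hlt)).mono
          fun δ ⟨m, hm, hc⟩ => ⟨m, B, hap, hm, hc⟩)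
      have hq0 : (0 : ℝ) < q := by
        have h5 := (fM_nonneg n k hk).trans_lt hq
        exact_mod_cast h5
      filter_upwards [typical_cov h2 hq0 K₀ hK₀] with K hK _
      exact lowerDim_le K.1.isCompact.isBounded K.1.nonempty hK
    · exact Eventually.of_forall fun K h => absurd h hq
  filter_upwards [eventually_countable_forall.2 key] with K hK
  refine le_of_not_gt fun hlt => ?_
  obtain ⟨q, h1, h2⟩ := EReal.lt_iff_exists_rat_btwn.1 hlt
  exact absurd (hK q h1) (not_le.2 h2)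

lemma typical_upper :
    ∀ᶠ K : APS n k in residual (APS n k), (n : EReal) ≤ upperDim (K.1 : Set (E n)) := by
  have key : ∀ j : ℕ, ∀ᶠ K : APS n k in residual (APS n k),
      (((n : ℝ) - 1 / ((j : ℝ) + 1) : ℝ) : EReal) ≤ upperDim (K.1 : Set (E n)) := by
    intro j
    have h : (n : ℝ) - 1 / ((j : ℝ) + 1) < n := by
      have : (0 : ℝ) < 1 / ((j : ℝ) + 1) := by positivity
      linarith
    filter_upwards [typical_large (n := n) (k := k) h] with K hK
    exact le_upperDim K.1.isCompact.isBounded K.1.nonempty hK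
  filter_upwards [eventually_countable_forall.2 key] with K hK
  refine EReal.ge_of_forall_gt_iff_ge.1 fun z hz => ?_
  have hz' : z < (n : ℝ) := by exact_mod_cast hz
  obtain ⟨j, hj⟩ := exists_nat_one_div_lt (sub_pos.2 hz')
  refine le_trans ?_ (hK j)
  rw [EReal.coe_le_coe_iff]
  linarith

/-- **Dimensions of typical sets.** -/
theorem typical_dims (hk : 1 ≤ k) : ∀ᶠ K : APS n k in residual (APS n k),
    dimH (K.1 : Set (E n)) = 0 ∧ lowerDim (K.1 : Set (E n)) = fM n k ∧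
    upperDim (K.1 : Set (E n)) = n := by
  filter_upwards [typical_dimH hk, typical_lower n k hk, typical_upper n k] with K h1 h2 h3
  exact ⟨h1, le_antisymm h2 (fM_le_lowerDim n k hk K.1.isCompact.isBounded K.2),
    le_antisymm (upperDim_le_n K.1.isCompact.isBounded K.1.nonempty) h3⟩

/-- **Uniform lower bounds at every scale.** -/
theorem uniform (hk : 1 ≤ k) : ∃ c : ℝ, 0 < c ∧ ∀ (B : Set (E n)), Bornology.IsBounded B →
    HasAP k B → ∀ δ : ℝ, 0 < δ → δ ≤ 1 → c * δ ^ (-(fM n k).toReal) ≤ covN δ B := by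
  obtain ⟨C, hC1, hC⟩ := exists_disc n k
  have hC0 : (0 : ℝ) < C := by exact_mod_cast hC1
  have hC1' : (1 : ℝ) ≤ C := by exact_mod_cast hC1
  set s : ℝ := (fM n k).toReal with hs
  have hf0 := fM_nonneg n k hk
  have hfn := fM_le_n n k hk
  have hcoe : ((s : ℝ) : EReal) = fM n k := by
    refine EReal.coe_toReal ?_ ?_
    · exact ne_top_of_le_ne_top (by exact_mod_cast EReal.coe_ne_top (n : ℝ)) hfn
    · exact ne_bot_of_le_ne_bot (by simp) hf0
  have hs0 : 0 ≤ s := by
    have : (0 : EReal) ≤ (s : EReal) := by rw [hcoe]; exact hf0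
    exact_mod_cast this
  refine ⟨1 / (C * 2 ^ s), by positivity, fun B hB hap δ hδ hδ1 => ?_⟩
  have hne := hap.nonempty hk
  have hN1 : (1 : ℝ) ≤ covN δ B := by exact_mod_cast covN_pos hB hne hδ
  rw [one_div, inv_mul_le_iff₀ (by positivity), rpow_inv_eq hδ]
  set M : ℕ := ⌊1 / δ⌋₊ with hM
  have hle : (M : ℝ) ≤ 1 / δ := Nat.floor_le (by positivity)
  have hlt : 1 / δ < M + 1 := Nat.lt_floor_add_one _
  rcases lt_or_ge M 2 with hM2 | hM2
  · have h1 : (1 / δ) ^ s ≤ 2 ^ s := by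
      refine Real.rpow_le_rpow (by positivity) ?_ hs0
      have : (M : ℝ) ≤ 1 := by exact_mod_cast (by omega : M ≤ 1)
      linarith
    have h2 : (0 : ℝ) ≤ 2 ^ s := by positivity
    calc (1 / δ) ^ s ≤ 2 ^ s := h1
      _ = 1 * 2 ^ s * 1 := by ring
      _ ≤ C * 2 ^ s * covN δ B := by gcongr
  · have hM2' : (2 : ℝ) ≤ M := by exact_mod_cast hM2
    have hM0 : (0 : ℝ) < M := by linarith
    have hcov' : Cov (1 / (M : ℝ)) (covN δ B) B := by
      refine (cov_covN hB hδ).mono ?_ le_rfl Subset.rfl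
      rw [le_div_iff₀ hδ] at hle
      rw [le_div_iff₀ hM0]; linarith
    obtain ⟨A, hAc, hAd⟩ := hC M _ B (by omega) hap hcov'
    have hCN : (0 : ℝ) < C * covN δ B := by positivity
    set s₁ : ℝ := Real.log (C * covN δ B) / Real.log M with hs₁
    have hlogM : 0 < Real.log M := Real.log_pos (by linarith)
    have hMs : (M : ℝ) ^ s₁ = C * covN δ B := by
      rw [Real.rpow_def_of_pos hM0, hs₁, mul_div_cancel₀ _ hlogM.ne', Real.exp_log hCN]
    have hAM : (A.card : ℝ) ≤ (M : ℝ) ^ s₁ := by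
      rw [hMs]; exact_mod_cast hAc
    obtain ⟨K, hK⟩ := exists_attr hk hM2 hAd hAM
    have hss : s ≤ s₁ := by
      refine le_of_forall_gt_imp_ge_of_dense fun t ht => ?_
      have h1 := upperDim_le K.1.isCompact.isBounded K.1.nonempty (hK t ht)
      have h2 : fM n k ≤ t :=
        (fM_le n k K.1.isCompact.isBounded K.2).trans h1
      rw [← hcoe, EReal.coe_le_coe_iff] at h2
      exact h2
    calc (1 / δ) ^ s ≤ (2 * M) ^ s :=
          Real.rpow_le_rpow (by positivity) (by linarith) hs0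
      _ = 2 ^ s * M ^ s := Real.mul_rpow (by norm_num) hM0.le
      _ ≤ 2 ^ s * M ^ s₁ := by
          gcongr
          linarith
      _ = C * 2 ^ s * covN δ B := by rw [hMs]; ring

end Pool.Agent.Q93.TAP
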