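import Pool.Agent.Q93.TAP.Typ

open MeasureTheory Metric Set Filter Topology TopologicalSpace
open scoped ENNReal NNReal

namespace Pool.Agent.Q93.TAP

open Pool.Agent.Q93.TypK (lat lat_apply exists_lat card_lat Cheap hausdorff_zero_of_cheap
  exists_radius)

variable {n k : ℕ}

lemma cube_norm {r : E n} (hr : ∀ i, r i ∈ Icc (0 : ℝ) 1) : ‖r‖ ≤ Real.sqrt n := by
  rw [EuclideanSpace.norm_eq]
  refine Real.sqrt_le_sqrt ?_
  calc ∑ i, ‖r i‖ ^ 2 ≤ ∑ _i : Fin n, (1 : ℝ) := by
        refine Finset.sum_le_sum fun i _ => ?_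
        rw [Real.norm_eq_abs, sq_abs]
        have := (hr i).1
        have := (hr i).2
        nlinarith
    _ = n := by simp

lemma rpow_small {s : ℝ} (hs : 0 < s) : ∀ ε > 0, ∃ r : ℝ, 0 < r ∧ r ≤ 1 ∧ r ^ s < ε := by
  intro ε hε
  obtain ⟨r, h1, h2, h3⟩ := exists_radius hs le_rfl (by norm_num) (half_pos hε)
  rw [Real.zero_rpow hs.ne'] at h3
  exact ⟨r, h1, h2, by linarith⟩

/-- Finitely many balls with small `∑ r ^ s` which contain, with a margin, the progressions. -/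
lemma cheap_balls {s : ℝ} (hs : 0 < s) (k : ℕ) : ∀ ε > 0, ∃ S : Finset (E n × ℝ),
    (∀ p ∈ S, 0 < p.2 ∧ p.2 ≤ 1) ∧ ∑ p ∈ S, p.2 ^ s < ε ∧ ∃ τ > 0,
      ∀ r : E n, (∀ i, r i ∈ Icc (0 : ℝ) 1) → ∃ a : E n, ‖a‖ ≤ k ∧ ∀ j : ℕ, j < k →
        closedBall (a + (j : ℝ) • r) τ ⊆ ⋃ p ∈ S, ball p.1 p.2 := by
  classical
  induction k with
  | zero =>
    intro ε hε
    exact ⟨∅, by simp, by simpa using hε, 1, one_pos, fun r _ => ⟨0, by simp, fun j hj =>
      absurd hj (by omega)⟩⟩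
  | succ k ih =>
    intro ε hε
    obtain ⟨S, hS, hsum, τ, hτ, hap⟩ := ih (ε / 2) (half_pos hε)
    set τ₁ : ℝ := min τ 1 / 2 with hτ₁
    have h0 : 0 < min τ 1 := lt_min hτ one_pos
    have hτ₁0 : 0 < τ₁ := half_pos h0
    have hτ₁τ : 2 * τ₁ ≤ τ := by
      have := min_le_left τ 1
      linarith
    have hτ₁1 : τ₁ ≤ 1 := by
      have := min_le_right τ 1
      linarith
    set e : ℝ := τ₁ / (Real.sqrt n + 1) with he
    have hsq : 0 ≤ Real.sqrt n := Real.sqrt_nonneg _
    have he0 : 0 < e := by positivity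
    have heτ : Real.sqrt n * e ≤ τ₁ := by
      rw [he, mul_div_assoc', div_le_iff₀ (by positivity)]
      nlinarith
    obtain ⟨L, hL⟩ := exists_nat_ge ((k + k * Real.sqrt n) / e + 1)
    set Λ : Finset (Fin n → ℤ) := Finset.Icc (fun _ => -(L : ℤ)) (fun _ => (L : ℤ)) with hΛ
    obtain ⟨ρ, hρ, hρ1, hρs⟩ := rpow_small hs (ε / 2 / (Λ.card + 1)) (by positivity)
    set S' : Finset (E n × ℝ) := S ∪ Λ.image (fun z => (lat e z, ρ)) with hS'
    refine ⟨S', ?_, ?_, min τ₁ (ρ / 2), lt_min hτ₁0 (half_pos hρ), ?_⟩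
    · intro p hp
      rw [hS', Finset.mem_union, Finset.mem_image] at hp
      rcases hp with hp | ⟨z, _, rfl⟩
      · exact hS p hp
      · exact ⟨hρ, hρ1⟩
    · have h1 : ∑ p ∈ Λ.image (fun z => ((lat e z, ρ) : E n × ℝ)), p.2 ^ s ≤ Λ.card * ρ ^ s := by
        have h2 : ∀ p ∈ Λ.image (fun z => ((lat e z, ρ) : E n × ℝ)), p.2 ^ s ≤ ρ ^ s := by
          intro p hp
          rw [Finset.mem_image] at hp
          obtain ⟨z, _, rfl⟩ := hp
          exact le_rfl
        refine (Finset.sum_le_card_nsmul _ _ _ h2).trans ?_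
        rw [nsmul_eq_mul]
        gcongr
        exact Finset.card_image_le
      have h3 : ∑ p ∈ S', p.2 ^ s ≤ ∑ p ∈ S, p.2 ^ s +
          ∑ p ∈ Λ.image (fun z => ((lat e z, ρ) : E n × ℝ)), p.2 ^ s := by
        rw [hS', ← Finset.sum_union_inter]
        refine le_add_of_nonneg_right (Finset.sum_nonneg fun p hp => ?_)
        exact Real.rpow_nonneg (hS p (Finset.mem_inter.1 hp).1).1.le _
      have h4 : (Λ.card : ℝ) * ρ ^ s ≤ ε / 2 := by
        have h5 : ρ ^ s * (Λ.card + 1) < ε / 2 := by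
          rwa [lt_div_iff₀ (by positivity)] at hρs
        have h6 : 0 ≤ ρ ^ s := Real.rpow_nonneg hρ.le _
        nlinarith
      linarith
    · intro r hr
      obtain ⟨a, ha, hab⟩ := hap r hr
      set x : E n := a + (k : ℝ) • r with hx
      set z : Fin n → ℤ := fun i => ⌊x i / e⌋ with hz
      have hxz : ‖x - lat e z‖ ≤ τ₁ := (exists_lat he0 x).trans heτ
      have hxn : ‖x‖ ≤ k + k * Real.sqrt n := by
        refine (norm_add_le _ _).trans (add_le_add ha ?_)
        rw [norm_smul, Real.norm_of_nonneg (by positivity)]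
        have := cube_norm hr
        gcongr
      have hzΛ : z ∈ Λ := by
        rw [hΛ, Finset.mem_Icc]
        have h3 : ∀ i, |x i / e| ≤ (k + k * Real.sqrt n) / e := by
          intro i
          rw [abs_div, abs_of_pos he0]
          gcongr
          exact (PiLp.norm_apply_le x i).trans hxn
        constructor
        · intro i
          show -(L : ℤ) ≤ ⌊x i / e⌋
          rw [Int.le_floor]
          push_cast
          have := (abs_le.1 (h3 i)).1
          linarith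
        · intro i
          show ⌊x i / e⌋ ≤ (L : ℤ)
          have h4 : ((⌊x i / e⌋ : ℤ) : ℝ) ≤ L := by
            have h5 := Int.floor_le (x i / e)
            have := (abs_le.1 (h3 i)).2
            linarith
          exact_mod_cast h4
      refine ⟨a - (x - lat e z), ?_, fun j hj => ?_⟩
      · push_cast
        have := norm_sub_le a (x - lat e z)
        linarith
      · rcases Nat.lt_succ_iff_lt_or_eq.1 hj with hj | rfl
        · refine Subset.trans ?_ ((hab j hj).trans ?_)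
          · intro y hy
            rw [mem_closedBall, dist_eq_norm] at hy ⊢
            have e1 : y - (a + (j : ℝ) • r) = (y - (a - (x - lat e z) + (j : ℝ) • r)) -
                (x - lat e z) := by abel
            rw [e1]
            have h5 := norm_sub_le (y - (a - (x - lat e z) + (j : ℝ) • r)) (x - lat e z)
            have h6 := min_le_left τ₁ (ρ / 2)
            linarith
          · exact biUnion_subset_biUnion_left fun p hp => Finset.mem_union_left _ hp
        · intro y hy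
          simp only [mem_iUnion, exists_prop]
          refine ⟨(lat e z, ρ), Finset.mem_union_right _ (Finset.mem_image.2 ⟨z, hzΛ, rfl⟩), ?_⟩
          rw [mem_closedBall, dist_eq_norm] at hy
          rw [mem_ball, dist_eq_norm]
          have e1 : a - (x - lat e z) + (j : ℝ) • r = lat e z := by rw [hx]; abel
          rw [e1] at hy
          have h6 := min_le_right τ₁ (ρ / 2)
          show ‖y - lat e z‖ < ρ
          linarith

/-- There are compact sets with the progressions, of small `s`-dimensional content, in a fixed ball. -/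
lemma exists_cheap (hk : 1 ≤ k) {s : ℝ} (hs : 0 < s) {ε : ℝ} (hε : 0 < ε) : ∃ K₀ : APS n k,
    (K₀.1 : Set (E n)) ⊆ closedBall 0 (k + k * Real.sqrt n) ∧
    Cheap (fun r => r ^ s) (K₀.1 : Set (E n)) ε := by
  obtain ⟨S, hS, hsum, τ, hτ, hap⟩ := cheap_balls (n := n) hs k ε hε
  choose! a ha hab using hap
  set Q : Set (E n) := {x | ∃ r : E n, (∀ i, r i ∈ Icc (0 : ℝ) 1) ∧ ∃ j : ℕ, j < k ∧
    a r + (j : ℝ) • r = x} with hQ
  have hQR : Q ⊆ closedBall 0 (k + k * Real.sqrt n) := by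
    rintro x ⟨r, hr, j, hj, rfl⟩
    rw [mem_closedBall_zero_iff]
    refine (norm_add_le _ _).trans (add_le_add (ha r hr) ?_)
    rw [norm_smul, Real.norm_of_nonneg (by positivity)]
    have h1 := cube_norm hr
    have h2 : (j : ℝ) ≤ k := by exact_mod_cast hj.le
    gcongr
  have hcl : closure Q ⊆ closedBall 0 (k + k * Real.sqrt n) :=
    closure_minimal hQR isClosed_closedBall
  have hcomp : IsCompact (closure Q) :=
    (isCompact_closedBall (0 : E n) _).of_isClosed_subset isClosed_closure hcl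
  have hapQ : HasAP k (closure Q) := fun r hr =>
    ⟨a r, fun j hj => subset_closure ⟨r, hr, j, hj, rfl⟩⟩
  refine ⟨⟨⟨⟨_, hcomp⟩, hapQ.nonempty hk⟩, hapQ⟩, hcl, S, inferInstance, fun p => p.1.1,
    fun p => p.1.2, fun p => hS _ p.2, ?_, ?_⟩
  · intro x hx
    have hx' : x ∈ closure Q := hx
    rw [Metric.mem_closure_iff] at hx'
    obtain ⟨q, ⟨r, hr, j, hj, rfl⟩, hq⟩ := hx' τ hτ
    have h1 := hab r hr j hj (mem_closedBall.2 hq.le)
    simp only [mem_iUnion, exists_prop] at h1 ⊢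
    obtain ⟨p, hp, hxp⟩ := h1
    exact ⟨⟨p, hp⟩, hxp⟩
  · rw [Finset.sum_coe_sort S (fun p => p.2 ^ s)]
    exact hsum

lemma cheap_pert {F V : Finset (E n)} {η s : ℝ} {B : Set (E n)} {ε ρ : ℝ} (hη : 0 < η)
    (hη1 : η ≤ 1) (hs : 0 < s) (hρ : 0 < ρ) (hρ1 : ρ ≤ 1)
    (h : Cheap (fun r => r ^ s) B ε) :
    Cheap (fun r => r ^ s) (pert F V η B) (F.card * ρ ^ s + V.card * ε + ρ) := by
  classical
  obtain ⟨ι, hι, x, r, hr, hcov, hsum⟩ := h
  refine ⟨F ⊕ (V × ι), inferInstance, Sum.elim (fun f => f.1) (fun p => p.1.1 + η • x p.2),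
    Sum.elim (fun _ => ρ) (fun p => η * r p.2), ?_, ?_, ?_⟩
  · rintro (f | p)
    · exact ⟨hρ, hρ1⟩
    · refine ⟨mul_pos hη (hr _).1, ?_⟩
      have := (hr p.2).2
      have := (hr p.2).1
      simp only [Sum.elim_inr]
      nlinarith
  · rintro y (hy | hy)
    · rw [mem_iUnion]
      exact ⟨Sum.inl ⟨y, by simpa using hy⟩, mem_ball_self hρ⟩
    · simp only [mem_iUnion, exists_prop] at hy
      obtain ⟨v, hv, w, hw, rfl⟩ := hy
      have h1 := hcov hw
      rw [mem_iUnion] at h1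
      obtain ⟨i, hi⟩ := h1
      rw [mem_iUnion]
      refine ⟨Sum.inr (⟨v, hv⟩, i), ?_⟩
      simp only [Sum.elim_inr]
      rw [mem_ball, dist_eq_norm] at hi ⊢
      rw [add_sub_add_left_eq_sub, ← smul_sub, norm_smul, Real.norm_of_nonneg hη.le]
      exact mul_lt_mul_of_pos_left hi hη
  · rw [Fintype.sum_sum_type, Fintype.sum_prod_type]
    simp only [Sum.elim_inl, Sum.elim_inr, Finset.sum_const, Finset.card_univ, Fintype.card_coe,
      nsmul_eq_mul]
    have h1 : ∑ i, (η * r i) ^ s ≤ ε := by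
      refine le_trans (Finset.sum_le_sum fun i _ => ?_) hsum.le
      refine Real.rpow_le_rpow (mul_nonneg hη.le (hr i).1.le) ?_ hs.le
      have := (hr i).1
      nlinarith
    have h2 : (V.card : ℝ) * ∑ i, (η * r i) ^ s ≤ V.card * ε := by gcongr
    linarith

lemma isOpen_cheap (s ε : ℝ) :
    IsOpen {K : APS n k | Cheap (fun r => r ^ s) (K.1 : Set (E n)) ε} := by
  rw [Metric.isOpen_iff]
  rintro K ⟨ι, hι, x, r, hr, hcov, hsum⟩
  obtain ⟨ρ, hρ, h⟩ := near_cover K (isOpen_iUnion fun i => isOpen_ball) hcov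
  exact ⟨ρ, hρ, fun L hL => ⟨ι, hι, x, r, hr, h L hL, hsum⟩⟩

/-- **Typical sets have Hausdorff dimension zero.** -/
theorem typical_dimH (hk : 1 ≤ k) :
    ∀ᶠ K : APS n k in residual (APS n k), dimH (K.1 : Set (E n)) = 0 := by
  have key : ∀ i j : ℕ, ∀ᶠ K : APS n k in residual (APS n k),
      Cheap (fun r => r ^ (1 / ((i : ℝ) + 1))) (K.1 : Set (E n)) (1 / ((j : ℝ) + 1)) := by
    intro i j
    refine residual_of_dense_open (isOpen_cheap _ _) ?_
    rw [Metric.dense_iff]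
    intro K r hr
    have hs : (0 : ℝ) < 1 / ((i : ℝ) + 1) := by positivity
    obtain ⟨F, V, η, hη, hη1, h⟩ := construct K (half_pos hr) (k + k * Real.sqrt n)
    set t : ℝ := 1 / ((j : ℝ) + 1) with ht
    have ht0 : 0 < t := by positivity
    obtain ⟨K₀, hR, hch⟩ := exists_cheap (n := n) hk hs
      (show 0 < t / 4 / (V.card + 1) by positivity)
    obtain ⟨ρ₀, hρ₀, hρ₀1, hρ₀s⟩ := rpow_small hs (t / 4 / (F.card + 1)) (by positivity)
    obtain ⟨K', hd, hcar⟩ := h K₀ hR
    refine ⟨K', lt_of_le_of_lt hd (by linarith), ?_⟩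
    set ρ := min ρ₀ (t / 4) with hρdef
    have hρ : 0 < ρ := lt_min hρ₀ (by positivity)
    have hρ1 : ρ ≤ 1 := (min_le_left _ _).trans hρ₀1
    have hρt : ρ ≤ t / 4 := min_le_right _ _
    have hρs : ρ ^ (1 / ((i : ℝ) + 1)) ≤ ρ₀ ^ (1 / ((i : ℝ) + 1)) :=
      Real.rpow_le_rpow hρ.le (min_le_left _ _) hs.le
    have h1 := cheap_pert (F := F) (V := V) hη hη1 hs hρ hρ1 hch
    show Cheap (fun r => r ^ (1 / ((i : ℝ) + 1))) (K'.1 : Set (E n)) t
    rw [hcar]
    obtain ⟨ι, hι, x, r', hr', hcov, hsum⟩ := h1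
    refine ⟨ι, hι, x, r', hr', hcov, hsum.trans_le ?_⟩
    have h2 : (F.card : ℝ) * ρ ^ (1 / ((i : ℝ) + 1)) ≤ t / 4 := by
      rw [lt_div_iff₀ (by positivity)] at hρ₀s
      have h3 : 0 ≤ ρ₀ ^ (1 / ((i : ℝ) + 1)) := Real.rpow_nonneg hρ₀.le _
      have h4 : (F.card : ℝ) * ρ ^ (1 / ((i : ℝ) + 1)) ≤ F.card * ρ₀ ^ (1 / ((i : ℝ) + 1)) := by
        gcongr
      nlinarith
    have h5 : (V.card : ℝ) * (t / 4 / (V.card + 1)) ≤ t / 4 := by
      rw [mul_div_assoc', div_le_iff₀ (by positivity)]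
      nlinarith [show (0 : ℝ) ≤ V.card from Nat.cast_nonneg _]
    linarith
  filter_upwards [eventually_countable_forall.2 fun i => eventually_countable_forall.2 (key i)]
    with K hK
  refine le_antisymm ?_ bot_le
  refine le_of_forall_gt fun c hc => ?_
  obtain ⟨q, hq0, hqc⟩ := ENNReal.lt_iff_exists_nnreal_btwn.1 hc
  have hq0' : (0 : ℝ) < q := by exact_mod_cast hq0
  obtain ⟨i, hi⟩ := exists_nat_one_div_lt hq0'
  have hs : (0 : ℝ) < 1 / ((i : ℝ) + 1) := by positivity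
  have h1 : μH[1 / ((i : ℝ) + 1)] (K.1 : Set (E n)) = 0 := by
    refine hausdorff_zero_of_cheap hs fun ε hε => ?_
    obtain ⟨j, hj⟩ := exists_nat_one_div_lt hε
    obtain ⟨ι, hι, x, r', hr', hcov, hsum⟩ := hK i j
    exact ⟨ι, hι, x, r', hr', hcov, hsum.trans hj⟩
  set d : ℝ≥0 := ⟨1 / ((i : ℝ) + 1), hs.le⟩ with hd
  have h2 : dimH (K.1 : Set (E n)) ≤ d := by
    refine dimH_le_of_hausdorffMeasure_ne_top ?_
    have : μH[(d : ℝ)] (K.1 : Set (E n)) = 0 := h1
    rw [this]; exact ENNReal.zero_ne_top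
  refine (h2.trans ?_).trans_lt hqc
  rw [ENNReal.coe_le_coe]
  exact NNReal.coe_le_coe.1 (show ((d : ℝ≥0) : ℝ) ≤ q from hi.le)

end Pool.Agent.Q93.TAP
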