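import Pool.Agent.Q93.TAP.Core

open MeasureTheory Metric Set Filter Topology TopologicalSpace
open scoped ENNReal NNReal

namespace Pool.Agent.Q93.TAP

open Pool.Agent.Q93.TypK (lat lat_apply exists_lat card_lat)

variable {n k : ℕ}

lemma rpow_ev {s t : ℝ} (hst : s < t) (C : ℝ) : ∀ᶠ x : ℝ in atTop, C * x ^ s ≤ x ^ t := by
  have h1 : ∀ᶠ x : ℝ in atTop, C ≤ x ^ (t - s) :=
    (tendsto_rpow_atTop (sub_pos.2 hst)).eventually_ge_atTop C
  filter_upwards [h1, eventually_gt_atTop 0] with x h1 h2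
  calc C * x ^ s ≤ x ^ (t - s) * x ^ s := by gcongr
    _ = x ^ t := by rw [← Real.rpow_add h2]; congr 1; ring

lemma tendsto_inv_gt : Tendsto (fun δ : ℝ => 1 / δ) (𝓝[>] 0) atTop := by
  simp only [one_div]
  exact tendsto_inv_nhdsGT_zero

/-- The covering numbers of the self-similar set. -/
lemma attr_cov {M : ℕ} (hM : 2 ≤ M) {A : Finset (Fin n → ℤ)} (hA : A.Nonempty) {R : ℝ}
    (hR0 : 0 < R) {s₁ s : ℝ} (hs : s₁ < s) (hAM : (A.card : ℝ) ≤ (M : ℝ) ^ s₁) :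
    ∀ᶠ δ in 𝓝[>] (0 : ℝ), ∃ m : ℕ, (m : ℝ) ≤ δ ^ (-s) ∧ Cov δ m (attr M A R) := by
  have hM2 : (2 : ℝ) ≤ M := by exact_mod_cast hM
  have hA1 : (1 : ℝ) ≤ A.card := by exact_mod_cast hA.card_pos
  have hs1 : 0 ≤ s₁ := by
    by_contra hneg
    push Not at hneg
    have := Real.rpow_lt_one_of_one_lt_of_neg (show (1 : ℝ) < M by linarith) hneg
    linarith
  have hev := tendsto_inv_gt.eventually (rpow_ev hs (((M : ℝ) * R) ^ s₁))
  have hlt : ∀ᶠ δ : ℝ in 𝓝[>] 0, δ < R :=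
    (eventually_lt_nhds hR0).filter_mono nhdsWithin_le_nhds
  filter_upwards [hev, hlt, self_mem_nhdsWithin] with δ h1 h2 h3
  have hδ : (0 : ℝ) < δ := h3
  classical
  have hex : ∃ J : ℕ, R / (M : ℝ) ^ J < δ := by
    obtain ⟨J, hJ⟩ := pow_unbounded_of_one_lt (R / δ) (show (1 : ℝ) < M by linarith)
    refine ⟨J, ?_⟩
    rw [div_lt_iff₀ hδ] at hJ
    rw [div_lt_iff₀ (by positivity)]
    linarith
  set J := Nat.find hex with hJ
  have hJ1 : R / (M : ℝ) ^ J < δ := Nat.find_spec hex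
  have hJ0 : J ≠ 0 := by
    intro h
    rw [h, pow_zero, div_one] at hJ1
    linarith
  obtain ⟨I, hI⟩ := Nat.exists_eq_succ_of_ne_zero hJ0
  have hI1 : δ ≤ R / (M : ℝ) ^ I := by
    have := Nat.find_min hex (show I < Nat.find hex by rw [← hJ]; omega)
    exact not_lt.1 this
  obtain ⟨S, hS, hcov⟩ := app_cov (R := R) (show 1 ≤ M by omega) J (A := A)
  refine ⟨A.card ^ J, ?_, S, hS, ?_⟩
  · push_cast
    calc (A.card : ℝ) ^ J ≤ ((M : ℝ) ^ s₁) ^ J := by gcongr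
      _ = ((M : ℝ) ^ J) ^ s₁ := by
          rw [← Real.rpow_natCast, ← Real.rpow_mul (by positivity), mul_comm,
            Real.rpow_mul (by positivity), Real.rpow_natCast]
      _ ≤ ((M : ℝ) * R * (1 / δ)) ^ s₁ := by
          refine Real.rpow_le_rpow (by positivity) ?_ hs1
          rw [hI, pow_succ]
          have h4 : (M : ℝ) ^ I ≤ R / δ := by
            rw [le_div_iff₀ (by positivity)] at hI1
            rw [le_div_iff₀ hδ]; linarith
          calc (M : ℝ) ^ I * M ≤ R / δ * M := by gcongr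
            _ = (M : ℝ) * R * (1 / δ) := by ring
      _ = ((M : ℝ) * R) ^ s₁ * (1 / δ) ^ s₁ := Real.mul_rpow (by positivity) (by positivity)
      _ ≤ (1 / δ) ^ s := h1
      _ = δ ^ (-s) := by rw [one_div, Real.inv_rpow hδ.le, Real.rpow_neg hδ.le]
  · refine (iInter_subset _ J).trans (hcov.trans ?_)
    exact iUnion₂_mono fun x _ => closedBall_subset_ball hJ1

/-- Rounding. -/
lemma exists_disc (n k : ℕ) : ∃ C : ℕ, 1 ≤ C ∧ ∀ (M m : ℕ) (B : Set (E n)), 1 ≤ M → HasAP k B →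
    Cov (1 / (M : ℝ)) m B → ∃ A : Finset (Fin n → ℤ), A.card ≤ C * m ∧ Disc k M A := by
  classical
  obtain ⟨C, hC⟩ := card_lat (n := n) one_pos (1 + Real.sqrt n)
  refine ⟨C + 1, by omega, fun M m B hM hB hcov => ?_⟩
  obtain ⟨S, hS, hcov⟩ := hcov
  have hM0 : (0 : ℝ) < M := by exact_mod_cast hM
  have hfin : ∀ x : E n, {z : Fin n → ℤ | ‖(M : ℝ) • x - lat 1 z‖ ≤ 1 + Real.sqrt n}.Finite := by
    intro x
    by_contra hinf
    obtain ⟨Λ, hΛ, hcard⟩ := Set.Infinite.exists_subset_card_eq hinf (C + 1)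
    have := hC Λ ((M : ℝ) • x) (fun z hz => hΛ hz)
    omega
  set A : Finset (Fin n → ℤ) := S.biUnion (fun x => (hfin x).toFinset) with hAdef
  refine ⟨A, ?_, ?_⟩
  · calc A.card ≤ S.card * C := Finset.card_biUnion_le_card_mul _ _ _ fun x _ =>
          hC _ ((M : ℝ) • x) (fun z hz => by simpa using hz)
      _ ≤ (C + 1) * m := by nlinarith
  · intro d hd
    set r : E n := (M : ℝ)⁻¹ • lat 1 d with hr
    have hr1 : ∀ i, r i ∈ Icc (0 : ℝ) 1 := by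
      intro i
      have e : r i = (M : ℝ)⁻¹ * d i := by
        rw [hr, PiLp.smul_apply, lat_apply, smul_eq_mul, one_mul]
      rw [e]
      have h1 : (0 : ℝ) ≤ d i := by exact_mod_cast (hd i).1
      have h2 : (d i : ℝ) ≤ M := by exact_mod_cast (hd i).2.le
      refine ⟨by positivity, ?_⟩
      rw [inv_mul_le_iff₀ hM0]; linarith
    obtain ⟨a, ha⟩ := hB r hr1
    refine ⟨fun i => ⌊(M : ℝ) * a i⌋, fun j hj => ?_⟩
    have h1 := hcov (ha j hj)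
    simp only [mem_iUnion, exists_prop] at h1
    obtain ⟨x, hx, hax⟩ := h1
    rw [hAdef, Finset.mem_biUnion]
    refine ⟨x, hx, ?_⟩
    simp only [Set.Finite.mem_toFinset, Set.mem_ofPred_eq]
    have h2 := exists_lat (n := n) one_pos ((M : ℝ) • (a + (j : ℝ) • r))
    have h3 : (fun i => ⌊((M : ℝ) • (a + (j : ℝ) • r)) i / 1⌋) =
        fun i => ⌊(M : ℝ) * a i⌋ + (j : ℤ) * d i := by
      funext i
      have e : ((M : ℝ) • (a + (j : ℝ) • r)) i / 1 = (M : ℝ) * a i + ((j * d i : ℤ) : ℝ) := by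
        simp only [hr, PiLp.smul_apply, PiLp.add_apply, lat_apply, smul_eq_mul, one_mul, div_one]
        push_cast
        field_simp
      rw [e, Int.floor_add_intCast]
    rw [h3, mul_one] at h2
    have h4 : ‖(M : ℝ) • x - (M : ℝ) • (a + (j : ℝ) • r)‖ ≤ 1 := by
      rw [← smul_sub, norm_smul, Real.norm_of_nonneg hM0.le, ← dist_eq_norm, dist_comm]
      have : dist (a + (j : ℝ) • r) x < 1 / M := hax
      rw [lt_div_iff₀ hM0] at this
      linarith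
    calc ‖(M : ℝ) • x - lat 1 (fun i => ⌊(M : ℝ) * a i⌋ + (j : ℤ) * d i)‖
        = ‖((M : ℝ) • x - (M : ℝ) • (a + (j : ℝ) • r)) + ((M : ℝ) • (a + (j : ℝ) • r) -
            lat 1 (fun i => ⌊(M : ℝ) * a i⌋ + (j : ℤ) * d i))‖ := by congr 1; abel
      _ ≤ _ := norm_add_le _ _
      _ ≤ 1 + Real.sqrt n := add_le_add h4 h2

/-- From one good scale to a self-similar set. -/
lemma exists_attr (hk : 1 ≤ k) {M : ℕ} (hM : 2 ≤ M) {A : Finset (Fin n → ℤ)} (hA : Disc k M A)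
    {s₁ : ℝ} (hAM : (A.card : ℝ) ≤ (M : ℝ) ^ s₁) :
    ∃ K : APS n k, ∀ s, s₁ < s → ∀ᶠ δ in 𝓝[>] (0 : ℝ), ∃ m : ℕ, (m : ℝ) ≤ δ ^ (-s) ∧
      Cov δ m (K.1 : Set (E n)) := by
  have hAne : A.Nonempty := by
    obtain ⟨a, ha⟩ := hA 0 (fun i => ⟨le_rfl, by simp; omega⟩)
    exact ⟨_, ha 0 hk⟩
  set R : ℝ := k * Real.sqrt n + ∑ z ∈ A, ‖lat 1 z‖ + 1 with hR
  have h0 : 0 ≤ ∑ z ∈ A, ‖lat 1 z‖ := Finset.sum_nonneg fun _ _ => norm_nonneg _
  have h0' : 0 ≤ k * Real.sqrt n := by positivity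
  have hR1 : k * Real.sqrt n ≤ R := by linarith
  have hR2 : ∀ z ∈ A, ‖lat 1 z‖ ≤ R := by
    intro z hz
    have := Finset.single_le_sum (f := fun z => ‖(lat 1 z : E n)‖) (fun _ _ => norm_nonneg _) hz
    linarith
  have hap := attr_hasAP hM hk hA hR1 hR2
  exact ⟨⟨⟨⟨attr M A R, attr_compact M A R⟩, hap.nonempty hk⟩, hap⟩,
    fun s hs => attr_cov hM hAne (by linarith) hs hAM⟩

/-- **One scale determines a set which is small at all scales.** -/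
lemma exists_compact (hk : 1 ≤ k) {s₁ s : ℝ} (hs : s₁ < s)
    (hfreq : ∃ᶠ δ in 𝓝[>] (0 : ℝ), ∃ (m : ℕ) (B : Set (E n)), HasAP k B ∧ (m : ℝ) ≤ δ ^ (-s₁) ∧
      Cov δ m B) :
    ∃ K : APS n k, ∀ᶠ δ in 𝓝[>] (0 : ℝ), ∃ m : ℕ, (m : ℝ) ≤ δ ^ (-s) ∧
      Cov δ m (K.1 : Set (E n)) := by
  obtain ⟨C, hC1, hC⟩ := exists_disc n k
  obtain ⟨s₂, h12, h2s⟩ := exists_between hs
  have hs1 : 0 ≤ s₁ := by
    by_contra hneg
    push Not at hneg
    have hlt : ∀ᶠ δ : ℝ in 𝓝[>] 0, δ < 1 :=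
      (eventually_lt_nhds one_pos).filter_mono nhdsWithin_le_nhds
    obtain ⟨δ, ⟨m, B, hB, hm, S, hS, hcov⟩, hδ1, hδ0⟩ :=
      (hfreq.and_eventually (hlt.and self_mem_nhdsWithin)).exists
    have hδ0' : (0 : ℝ) < δ := hδ0
    obtain ⟨y, hy⟩ := hB.nonempty hk
    have h1 := hcov hy
    simp only [mem_iUnion, exists_prop] at h1
    obtain ⟨x, hx, -⟩ := h1
    have h2 : 1 ≤ m := (Finset.card_pos.2 ⟨x, hx⟩).trans_le hS
    have h3 : δ ^ (-s₁) < 1 := Real.rpow_lt_one hδ0'.le hδ1 (by linarith)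
    have h4 : (1 : ℝ) ≤ m := by exact_mod_cast h2
    linarith
  have hfl : Tendsto (fun δ : ℝ => (⌊1 / δ⌋₊ : ℝ)) (𝓝[>] 0) atTop :=
    tendsto_natCast_atTop_atTop.comp (tendsto_nat_floor_atTop.comp tendsto_inv_gt)
  have hev1 := hfl.eventually (rpow_ev h12 ((C : ℝ) * 2 ^ s₁))
  have hev2 := hfl.eventually_ge_atTop 2
  obtain ⟨δ, ⟨m, B, hB, hm, hcov⟩, ⟨h1, h2⟩, hδ0⟩ :=
      (hfreq.and_eventually ((hev1.and hev2).and self_mem_nhdsWithin)).exists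
  have hδ : (0 : ℝ) < δ := hδ0
  set M : ℕ := ⌊1 / δ⌋₊ with hM
  have hM2 : 2 ≤ M := by exact_mod_cast h2
  have hM0 : (0 : ℝ) < M := by linarith
  have hle : (M : ℝ) ≤ 1 / δ := Nat.floor_le (by positivity)
  have hlt : 1 / δ < M + 1 := Nat.lt_floor_add_one _
  have hcov' : Cov (1 / (M : ℝ)) m B := by
    refine hcov.mono ?_ le_rfl Subset.rfl
    rw [le_div_iff₀ hδ] at hle
    rw [le_div_iff₀ hM0]; linarith
  obtain ⟨A, hAc, hAd⟩ := hC M m B (by omega) hB hcov'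
  have hAM : (A.card : ℝ) ≤ (M : ℝ) ^ s₂ := by
    calc (A.card : ℝ) ≤ ((C * m : ℕ) : ℝ) := by exact_mod_cast hAc
      _ = C * m := by push_cast; ring
      _ ≤ C * δ ^ (-s₁) := by gcongr
      _ = C * (1 / δ) ^ s₁ := by rw [one_div, Real.inv_rpow hδ.le, Real.rpow_neg hδ.le]
      _ ≤ C * (2 * M) ^ s₁ := by
          have : (1 / δ) ^ s₁ ≤ (2 * (M : ℝ)) ^ s₁ :=
            Real.rpow_le_rpow (by positivity) (by linarith) hs1
          gcongr
      _ = C * 2 ^ s₁ * M ^ s₁ := by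
          rw [Real.mul_rpow (by norm_num) hM0.le]; ring
      _ ≤ _ := h1
  obtain ⟨K, hK⟩ := exists_attr hk hM2 hAd hAM
  exact ⟨K, hK s h2s⟩

end Pool.Agent.Q93.TAP
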