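import Pool.Agent.Q93.TAP.Self

open MeasureTheory Metric Set Filter Topology TopologicalSpace
open scoped ENNReal NNReal

namespace Pool.Agent.Q93.TAP

open Pool.Agent.Q93.TypK (lat lat_apply exists_lat card_lat Cheap hausdorff_zero_of_cheap)

variable {n k : ℕ}

/-- Finitely many points and small copies of a set. -/
def pert (F V : Finset (E n)) (η : ℝ) (B : Set (E n)) : Set (E n) :=
  (F : Set (E n)) ∪ ⋃ v ∈ V, (fun y => v + η • y) '' B

/-- Near every set of the space there are sets of the space made of finitely many points and of small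
copies of a given set of the space. -/
lemma construct (K : APS n k) {ρ : ℝ} (hρ : 0 < ρ) (R : ℝ) :
    ∃ (F V : Finset (E n)) (η : ℝ), 0 < η ∧ η ≤ 1 ∧ ∀ K₀ : APS n k,
      (K₀.1 : Set (E n)) ⊆ closedBall 0 R → ∃ K' : APS n k, dist K' K ≤ ρ ∧
        (K'.1 : Set (E n)) = pert F V η (K₀.1 : Set (E n)) := by
  classical
  obtain ⟨F₀, hFK, hFfin, hFcov⟩ := K.1.isCompact.finite_cover_balls hρ
  obtain ⟨L, hL⟩ := exists_nat_ge (max 1 (R / ρ))
  have hL1 : (1 : ℝ) ≤ L := (le_max_left _ _).trans hL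
  have hL2 : R / ρ ≤ L := (le_max_right _ _).trans hL
  have hL0 : (0 : ℝ) < L := by linarith
  set η : ℝ := 1 / L with hη
  have hη0 : 0 < η := by positivity
  set D : Finset (Fin n → ℤ) := Finset.Icc 0 (fun _ => (L : ℤ)) with hD
  have hb : ∀ z : Fin n → ℤ, ∃ b : E n, z ∈ D → ∀ j : ℕ, j < k →
      b + (j : ℝ) • lat η z ∈ (K.1 : Set (E n)) := by
    intro z
    by_cases hz : z ∈ D
    · have h1 : ∀ i, (lat η z) i ∈ Icc (0 : ℝ) 1 := by
        intro i
        rw [hD, Finset.mem_Icc] at hz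
        have h2 : (0 : ℝ) ≤ z i := by exact_mod_cast hz.1 i
        have h3 : (z i : ℝ) ≤ L := by exact_mod_cast hz.2 i
        rw [lat_apply]
        refine ⟨by positivity, ?_⟩
        rw [hη, one_div_mul_eq_div, div_le_one hL0]
        exact h3
      obtain ⟨b, hb⟩ := K.2 _ h1
      exact ⟨b, fun _ => hb⟩
    · exact ⟨0, fun h => absurd h hz⟩
  choose b hb using hb
  set V : Finset (E n) := (D ×ˢ Finset.range k).image
    (fun p => b p.1 + (p.2 : ℝ) • lat η p.1) with hV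
  refine ⟨hFfin.toFinset, V, η, hη0, by rw [hη, div_le_one hL0]; exact hL1, fun K₀ hK₀ => ?_⟩
  set B : Set (E n) := (K₀.1 : Set (E n)) with hB
  have hcomp : IsCompact (pert hFfin.toFinset V η B) := by
    refine (hFfin.toFinset.finite_toSet.isCompact).union ?_
    refine V.finite_toSet.isCompact_biUnion fun v _ => K₀.1.isCompact.image ?_
    fun_prop
  have hne : (pert hFfin.toFinset V η B).Nonempty := by
    obtain ⟨x, hx⟩ := K.1.nonempty
    have := hFcov hx
    simp only [mem_iUnion, exists_prop] at this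
    obtain ⟨f, hf, _⟩ := this
    exact ⟨f, Or.inl (by simpa using hf)⟩
  have hap : HasAP k (pert hFfin.toFinset V η B) := by
    intro r hr
    set z : Fin n → ℤ := fun i => ⌊(L : ℝ) * r i⌋ with hz
    have hzD : z ∈ D := by
      rw [hD, Finset.mem_Icc]
      constructor
      · intro i
        exact Int.floor_nonneg.2 (mul_nonneg hL0.le (hr i).1)
      · intro i
        have h1 := Int.floor_le ((L : ℝ) * r i)
        have h2 := (hr i).2
        have h3 : (z i : ℝ) ≤ L := by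
          simp only [hz]; nlinarith
        exact_mod_cast h3
    set r' : E n := (L : ℝ) • r - lat 1 z with hr'
    have hr'1 : ∀ i, r' i ∈ Icc (0 : ℝ) 1 := by
      intro i
      have e : r' i = L * r i - z i := by
        rw [hr', PiLp.sub_apply, PiLp.smul_apply, lat_apply, smul_eq_mul, one_mul]
      rw [e]
      have h1 := Int.floor_le ((L : ℝ) * r i)
      have h2 := Int.lt_floor_add_one ((L : ℝ) * r i)
      simp only [hz]
      constructor <;> linarith
    obtain ⟨a, ha⟩ := K₀.2 r' hr'1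
    refine ⟨b z + η • a, fun j hj => Or.inr ?_⟩
    simp only [mem_iUnion, exists_prop]
    refine ⟨b z + (j : ℝ) • lat η z, Finset.mem_image.2 ⟨(z, j), Finset.mem_product.2
      ⟨hzD, Finset.mem_range.2 hj⟩, rfl⟩, a + (j : ℝ) • r', ha j hj, ?_⟩
    ext i
    simp only [PiLp.add_apply, PiLp.smul_apply, lat_apply, smul_eq_mul, one_mul, hr',
      PiLp.sub_apply, hη]
    field_simp
    ring
  refine ⟨⟨⟨⟨_, hcomp⟩, hne⟩, hap⟩, ?_, rfl⟩
  rw [Subtype.dist_eq, NonemptyCompacts.dist_eq]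
  refine hausdorffDist_le_of_mem_dist hρ.le ?_ ?_
  · intro x hx
    rcases hx with hx | hx
    · refine ⟨x, hFK (by simpa using hx), ?_⟩
      rw [dist_self]; exact hρ.le
    · simp only [mem_iUnion, exists_prop] at hx
      obtain ⟨v, hv, y, hy, rfl⟩ := hx
      rw [hV, Finset.mem_image] at hv
      obtain ⟨p, hp, rfl⟩ := hv
      rw [Finset.mem_product, Finset.mem_range] at hp
      refine ⟨b p.1 + (p.2 : ℝ) • lat η p.1, hb p.1 hp.1 p.2 hp.2, ?_⟩
      rw [dist_eq_norm, add_sub_cancel_left, norm_smul, Real.norm_of_nonneg hη0.le]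
      have h1 : ‖y‖ ≤ R := by simpa using hK₀ hy
      rw [div_le_iff₀ hρ] at hL2
      rw [hη, one_div_mul_eq_div, div_le_iff₀ hL0]
      linarith
  · intro y hy
    have := hFcov hy
    simp only [mem_iUnion, exists_prop] at this
    obtain ⟨f, hf, hyf⟩ := this
    refine ⟨f, Or.inl (by simpa using hf), ?_⟩
    have : dist y f < ρ := hyf
    exact this.le

lemma cov_pert {F V : Finset (E n)} {η δ : ℝ} {B : Set (E n)} {m : ℕ} (hη : 0 < η) (hδ : 0 < δ)
    (h : Cov (δ / η) m B) : Cov δ (F.card + V.card * m) (pert F V η B) := by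
  classical
  obtain ⟨S, hS, hcov⟩ := h
  refine ⟨F ∪ (V ×ˢ S).image (fun p => p.1 + η • p.2), ?_, ?_⟩
  · refine (Finset.card_union_le _ _).trans (Nat.add_le_add_left ?_ _)
    refine Finset.card_image_le.trans ?_
    rw [Finset.card_product]
    exact Nat.mul_le_mul_left _ hS
  · rintro y (hy | hy)
    · simp only [mem_iUnion, exists_prop]
      exact ⟨y, Finset.mem_union_left _ (by simpa using hy), mem_ball_self hδ⟩
    · simp only [mem_iUnion, exists_prop] at hy ⊢
      obtain ⟨v, hv, w, hw, rfl⟩ := hy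
      have h1 := hcov hw
      simp only [mem_iUnion, exists_prop] at h1
      obtain ⟨x, hx, hwx⟩ := h1
      refine ⟨v + η • x, Finset.mem_union_right _ (Finset.mem_image.2
        ⟨(v, x), Finset.mem_product.2 ⟨hv, hx⟩, rfl⟩), ?_⟩
      rw [mem_ball, dist_eq_norm] at hwx ⊢
      rw [add_sub_add_left_eq_sub, ← smul_sub, norm_smul, Real.norm_of_nonneg hη.le]
      rw [lt_div_iff₀ hη] at hwx
      linarith

/-- Sets near a compact set have the same finite covers. -/
lemma near_cover (K : APS n k) {U : Set (E n)} (hU : IsOpen U) (hK : (K.1 : Set (E n)) ⊆ U) :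
    ∃ ρ > 0, ∀ L : APS n k, dist L K < ρ → (L.1 : Set (E n)) ⊆ U := by
  obtain ⟨ρ, hρ, h⟩ := K.1.isCompact.exists_cthickening_subset_open hU hK
  exact ⟨ρ, hρ, fun L hL => (subset_cthickening_of_dist (by rwa [Subtype.dist_eq] at hL)).trans h⟩

lemma isOpen_cov (δ : ℝ) (m : ℕ) : IsOpen {K : APS n k | Cov δ m (K.1 : Set (E n))} := by
  rw [Metric.isOpen_iff]
  rintro K ⟨S, hS, hcov⟩
  obtain ⟨ρ, hρ, h⟩ := near_cover K (isOpen_biUnion fun x _ => isOpen_ball) hcov
  exact ⟨ρ, hρ, fun L hL => ⟨S, hS, h L hL⟩⟩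

/-- **Typical sets have covering numbers as small as possible, at infinitely many scales.** -/
theorem typical_cov {s₁ s : ℝ} (hs : s₁ < s) (hs0 : 0 < s) (K₀ : APS n k)
    (hK₀ : ∀ᶠ δ in 𝓝[>] (0 : ℝ), ∃ m : ℕ, (m : ℝ) ≤ δ ^ (-s₁) ∧ Cov δ m (K₀.1 : Set (E n))) :
    ∀ᶠ K : APS n k in residual (APS n k), ∃ᶠ δ in 𝓝[>] (0 : ℝ), ∃ m : ℕ,
      (m : ℝ) ≤ δ ^ (-s) ∧ Cov δ m (K.1 : Set (E n)) := by
  have key : ∀ j : ℕ, ∀ᶠ K : APS n k in residual (APS n k), ∃ δ : ℝ, 0 < δ ∧ δ < 1 / ((j : ℝ) + 1) ∧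
      ∃ m : ℕ, (m : ℝ) ≤ δ ^ (-s) ∧ Cov δ m (K.1 : Set (E n)) := by
    intro j
    have hopen : IsOpen {K : APS n k | ∃ δ : ℝ, 0 < δ ∧ δ < 1 / ((j : ℝ) + 1) ∧
        ∃ m : ℕ, (m : ℝ) ≤ δ ^ (-s) ∧ Cov δ m (K.1 : Set (E n))} := by
      have : {K : APS n k | ∃ δ : ℝ, 0 < δ ∧ δ < 1 / ((j : ℝ) + 1) ∧
          ∃ m : ℕ, (m : ℝ) ≤ δ ^ (-s) ∧ Cov δ m (K.1 : Set (E n))} =
          ⋃ (δ : ℝ) (_ : 0 < δ) (_ : δ < 1 / ((j : ℝ) + 1)) (m : ℕ) (_ : (m : ℝ) ≤ δ ^ (-s)),
            {K : APS n k | Cov δ m (K.1 : Set (E n))} := by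
        ext K
        simp only [Set.mem_ofPred_eq, mem_iUnion, exists_prop]
      rw [this]
      exact isOpen_iUnion fun δ => isOpen_iUnion fun _ => isOpen_iUnion fun _ =>
        isOpen_iUnion fun m => isOpen_iUnion fun _ => isOpen_cov δ m
    refine residual_of_dense_open hopen ?_
    rw [Metric.dense_iff]
    intro K r hr
    obtain ⟨R, hR⟩ := K₀.1.isCompact.isBounded.subset_closedBall 0
    obtain ⟨F, V, η, hη, hη1, h⟩ := construct K (half_pos hr) R
    obtain ⟨K', hd, hcar⟩ := h K₀ hR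
    refine ⟨K', lt_of_le_of_lt hd (by linarith), ?_⟩
    have hscale : Tendsto (fun δ : ℝ => δ / η) (𝓝[>] 0) (𝓝[>] 0) := by
      refine tendsto_nhdsWithin_iff.2 ⟨?_, ?_⟩
      · have : Tendsto (fun δ : ℝ => δ / η) (𝓝 0) (𝓝 (0 / η)) :=
          (continuous_id.div_const η).tendsto 0
        rw [zero_div] at this
        exact this.mono_left nhdsWithin_le_nhds
      · filter_upwards [self_mem_nhdsWithin] with δ hδ
        have hδ' : (0 : ℝ) < δ := hδ
        exact div_pos hδ' hη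
    have h1 := hscale.eventually hK₀
    have h2 := tendsto_inv_gt.eventually (rpow_ev hs0 (2 * (F.card : ℝ)))
    have h3 := tendsto_inv_gt.eventually (rpow_ev hs (2 * ((V.card : ℝ) * η ^ s₁)))
    have h4 : ∀ᶠ δ : ℝ in 𝓝[>] 0, δ < 1 / ((j : ℝ) + 1) :=
      (eventually_lt_nhds (by positivity)).filter_mono nhdsWithin_le_nhds
    obtain ⟨δ, ⟨⟨⟨h1, h2⟩, h3⟩, h4⟩, h5⟩ :=
      ((((h1.and h2).and h3).and h4).and self_mem_nhdsWithin).exists
    have hδ : (0 : ℝ) < δ := h5
    obtain ⟨m, hm, hcov⟩ := h1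
    refine ⟨δ, hδ, h4, F.card + V.card * m, ?_, ?_⟩
    · rw [Real.rpow_zero, mul_one] at h2
      have e : δ ^ (-s) = (1 / δ) ^ s := by rw [one_div, Real.inv_rpow hδ.le, Real.rpow_neg hδ.le]
      have e1 : (δ / η) ^ (-s₁) = η ^ s₁ * (1 / δ) ^ s₁ := by
        rw [Real.div_rpow hδ.le hη.le, Real.rpow_neg hδ.le, Real.rpow_neg hη.le, one_div,
          Real.inv_rpow hδ.le]
        field_simp
      rw [e]
      push_cast
      have h6 : (V.card : ℝ) * m ≤ V.card * (η ^ s₁ * (1 / δ) ^ s₁) := by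
        rw [← e1]; gcongr
      nlinarith
    · rw [hcar]; exact cov_pert hη hδ hcov
  filter_upwards [eventually_countable_forall.2 key] with K hK
  rw [Filter.frequently_iff]
  intro U hU
  rw [mem_nhdsGT_iff_exists_Ioo_subset] at hU
  obtain ⟨u, hu, hsub⟩ := hU
  obtain ⟨j, hj⟩ := exists_nat_one_div_lt (show (0 : ℝ) < u from hu)
  obtain ⟨δ, h1, h2, h3⟩ := hK j
  exact ⟨δ, hsub ⟨h1, h2.trans hj⟩, h3⟩

/-! ### large covering numbers at other scales -/

lemma cov_ball {x : E n} {ρ δ : ℝ} (hρ : 0 < ρ) (hδ : 0 < δ) {m : ℕ} {B : Set (E n)}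
    (hB : closedBall x ρ ⊆ B) (h : Cov δ m B) : (ρ / δ) ^ n ≤ m := by
  obtain ⟨S, hS, hcov⟩ := h
  have h1 : volume (closedBall x ρ) ≤ S.card * volume (ball (0 : E n) δ) := by
    refine (measure_mono (hB.trans hcov)).trans ((measure_biUnion_finset_le _ _).trans ?_)
    rw [← nsmul_eq_mul, ← Finset.sum_const]
    exact Finset.sum_le_sum fun y _ => (Measure.addHaar_ball_center _ _ _).le
  rw [Measure.addHaar_closedBall _ _ hρ.le, Measure.addHaar_ball_of_pos _ _ hδ, ← mul_assoc] at h1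
  have h2 : volume (ball (0 : E n) 1) ≠ 0 := (measure_ball_pos _ _ one_pos).ne'
  have h3 : volume (ball (0 : E n) 1) ≠ ⊤ := measure_ball_lt_top.ne
  rw [ENNReal.mul_le_mul_iff_left h2 h3] at h1
  rw [finrank_euclideanSpace, Fintype.card_fin, ← ENNReal.ofReal_natCast, ← ENNReal.ofReal_mul
    (by positivity), ENNReal.ofReal_le_ofReal_iff (by positivity)] at h1
  rw [div_pow, div_le_iff₀ (by positivity)]
  refine h1.trans ?_
  gcongr

/-- **Typical sets have covering numbers as large as possible, at infinitely many scales.** -/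
theorem typical_large {s : ℝ} (hs : s < n) :
    ∀ᶠ K : APS n k in residual (APS n k), ∃ᶠ δ in 𝓝[>] (0 : ℝ), ∀ m : ℕ,
      Cov δ m (K.1 : Set (E n)) → δ ^ (-s) ≤ m := by
  have key : ∀ j : ℕ, ∀ᶠ K : APS n k in residual (APS n k), ∃ δ : ℝ, 0 < δ ∧ δ < 1 / ((j : ℝ) + 1) ∧
      ∀ m : ℕ, Cov δ m (K.1 : Set (E n)) → δ ^ (-s) ≤ m := by
    intro j
    set G : Set (APS n k) := ⋃ (δ : ℝ) (_ : 0 < δ) (_ : δ < 1 / ((j : ℝ) + 1)) (K : APS n k)
      (_ : ∀ m : ℕ, Cov (2 * δ) m (K.1 : Set (E n)) → δ ^ (-s) ≤ m), ball K δ with hG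
    have hopen : IsOpen G := isOpen_iUnion fun δ => isOpen_iUnion fun _ => isOpen_iUnion fun _ =>
      isOpen_iUnion fun K => isOpen_iUnion fun _ => isOpen_ball
    have hdense : Dense G := by
      rw [Metric.dense_iff]
      intro K r hr
      obtain ⟨x, hx⟩ := K.1.nonempty
      set ρ : ℝ := r / 2 with hρdef
      have hρ : 0 < ρ := half_pos hr
      have hcomp : IsCompact ((K.1 : Set (E n)) ∪ closedBall x ρ) :=
        K.1.isCompact.union (isCompact_closedBall _ _)
      let K' : APS n k := ⟨⟨⟨_, hcomp⟩, ⟨x, Or.inl hx⟩⟩, K.2.mono subset_union_left⟩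
      refine ⟨K', ?_, ?_⟩
      · rw [mem_ball, Subtype.dist_eq, NonemptyCompacts.dist_eq]
        refine lt_of_le_of_lt (hausdorffDist_le_of_mem_dist hρ.le ?_ ?_) (half_lt_self hr)
        · rintro y (hy | hy)
          · exact ⟨y, hy, by rw [dist_self]; exact hρ.le⟩
          · exact ⟨x, hx, hy⟩
        · intro y hy
          exact ⟨y, Or.inl hy, by rw [dist_self]; exact hρ.le⟩
      · have h1 := tendsto_inv_gt.eventually (rpow_ev hs ((2 / ρ) ^ n))
        have h4 : ∀ᶠ δ : ℝ in 𝓝[>] 0, δ < 1 / ((j : ℝ) + 1) :=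
          (eventually_lt_nhds (by positivity)).filter_mono nhdsWithin_le_nhds
        obtain ⟨δ, ⟨h1, h4⟩, h5⟩ := ((h1.and h4).and self_mem_nhdsWithin).exists
        have hδ : (0 : ℝ) < δ := h5
        simp only [hG, mem_iUnion, exists_prop]
        refine ⟨δ, hδ, h4, K', fun m hm => ?_, mem_ball_self hδ⟩
        have h2 := cov_ball (x := x) hρ (show 0 < 2 * δ by linarith) subset_union_right hm
        rw [Real.rpow_natCast] at h1
        have e : δ ^ (-s) = (1 / δ) ^ s := by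
          rw [one_div, Real.inv_rpow hδ.le, Real.rpow_neg hδ.le]
        rw [e]
        refine le_trans ?_ h2
        have h3 : (ρ / (2 * δ)) ^ n = (1 / δ) ^ n / (2 / ρ) ^ n := by
          rw [← div_pow]; congr 1; field_simp
        rw [h3, le_div_iff₀ (by positivity)]
        linarith
    refine mem_of_superset (residual_of_dense_open hopen hdense) ?_
    intro L hL
    simp only [hG, mem_iUnion, exists_prop] at hL
    obtain ⟨δ, hδ, hδj, K, hK, hLK⟩ := hL
    refine ⟨δ, hδ, hδj, fun m hm => hK m ?_⟩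
    obtain ⟨S, hS, hcov⟩ := hm
    refine ⟨S, hS, fun y hy => ?_⟩
    have h1 : hausdorffDist (K.1 : Set (E n)) (L.1 : Set (E n)) < δ := by
      rw [← NonemptyCompacts.dist_eq, dist_comm]
      rw [mem_ball, Subtype.dist_eq] at hLK
      exact hLK
    obtain ⟨w, hw, hyw⟩ := exists_dist_lt_of_hausdorffDist_lt hy h1 (edist_ne _ _)
    have h2 := hcov hw
    simp only [mem_iUnion, exists_prop] at h2 ⊢
    obtain ⟨x, hx, hwx⟩ := h2
    refine ⟨x, hx, ?_⟩
    rw [mem_ball] at hwx ⊢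
    linarith [dist_triangle y w x]
  filter_upwards [eventually_countable_forall.2 key] with K hK
  rw [Filter.frequently_iff]
  intro U hU
  rw [mem_nhdsGT_iff_exists_Ioo_subset] at hU
  obtain ⟨u, hu, hsub⟩ := hU
  obtain ⟨j, hj⟩ := exists_nat_one_div_lt (show (0 : ℝ) < u from hu)
  obtain ⟨δ, h1, h2, h3⟩ := hK j
  exact ⟨δ, hsub ⟨h1, h2.trans hj⟩, h3⟩

end Pool.Agent.Q93.TAP
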